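import Pool.Agent.H43.TC.Targets4
import Pool.Agent.H43.TC.FIN

/-! Module VX4 of the te board (MP_183c3b_co, helper43), adapted from H47/TC/VTX.lean. -/

set_option autoImplicit false

namespace Pool.Agent.H69.TE

open Pool.Agent.H43.TC

theorem surj_lin {m : ℕ} (a : Fin 2 → ZMod m) (i : Fin 2) (h : a i = 1) :
    Function.Surjective (lin a) := by
  intro u
  refine ⟨Pi.single i u, ?_⟩
  show ∑ j, a j * (Pi.single i u : Fin 2 → ZMod m) j = u
  rw [Finset.sum_eq_single i]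
  · rw [Pi.single_eq_same, h, one_mul]
  · intro j _ hj
    rw [Pi.single_eq_of_ne hj, mul_zero]
  · intro h2
    exact absurd (Finset.mem_univ i) h2

theorem surj24 : Function.Surjective (lin (![10, 21] : Fin 2 → ZMod 24)) := by
  intro u
  refine ⟨![7 * u, 7 * u], ?_⟩
  show ∑ j, (![10, 21] : Fin 2 → ZMod 24) j * (![7 * u, 7 * u] : Fin 2 → ZMod 24) j = u
  rw [Fin.sum_univ_two]
  show (10 : ZMod 24) * (7 * u) + 21 * (7 * u) = u
  have h : (217 : ZMod 24) = 1 := by decide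
  calc (10 : ZMod 24) * (7 * u) + 21 * (7 * u) = 217 * u := by ring
    _ = u := by rw [h, one_mul]

/-- a colouring from a list -/
def col (m : ℕ) (l : List ℕ) (u : ZMod m) : Bool := decide (u.val ∈ l)

theorem use4 (m : ℕ) [NeZero m] (a : Fin 2 → ZMod m)
    (ha : Function.Surjective (lin a)) (f : ZMod m → Bool) (r WR WB : ℕ)
    (h1 : (Finset.univ.filter (fun u => f u = true)).card = r) (h2 : 2 * r ≤ m) (h3 : 0 < m - r)
    (h4 : ∑ u, walks a f true 4 u = WR) (h5 : ∑ u, walks a f false 4 u = WB) (x y : ℝ)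
    (hx : x = ((WR : ℝ) / 256 + m - 2 * r) / (m - r)) (hy : y = ((WB : ℝ) / 256) / (m - r)) :
    (x, y) ∈ region 2 4 := by
  have h := lin' 2 m 4 0 a ha f r WR WB h1 h2 h3 h4 h5
  have e : (2 * ((2 : ℕ) : ℝ)) ^ 4 = 256 := by norm_num
  rw [e] at h
  rw [hx, hy]
  exact h

theorem v0 : ((0 : ℝ), (0 : ℝ)) ∈ region 2 4 :=
  use4 2 ![1, 1] (surj_lin _ 0 rfl) (col 2 [0]) 1 0 0 (by decide +kernel) (by norm_num)
    (by norm_num) (by decide +kernel) (by decide +kernel) _ _ (by norm_num) (by norm_num)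

theorem v1 : ((5 / 32 : ℝ), (3 / 208 : ℝ)) ∈ region 2 4 :=
  use4 24 ![1, 19] (surj_lin _ 0 rfl) (col 24 [1, 2, 5, 8, 10, 12, 14, 16, 19, 22, 23]) 11 8 48 (by decide +kernel) (by norm_num)
    (by norm_num) (by decide +kernel) (by decide +kernel) _ _ (by norm_num) (by norm_num)

theorem v2 : ((129 / 512 : ℝ), (13 / 512 : ℝ)) ∈ region 2 4 :=
  use4 7 ![1, 2] (surj_lin _ 0 rfl) (col 7 [2, 5, 6]) 3 2 26 (by decide +kernel) (by norm_num)
    (by norm_num) (by decide +kernel) (by decide +kernel) _ _ (by norm_num) (by norm_num)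

theorem v3 : ((1 / 2 : ℝ), (1 / 16 : ℝ)) ∈ region 2 4 :=
  use4 3 ![1, 1] (surj_lin _ 0 rfl) (col 3 [0]) 1 0 32 (by decide +kernel) (by norm_num)
    (by norm_num) (by decide +kernel) (by decide +kernel) _ _ (by norm_num) (by norm_num)

theorem v4 : ((3 / 5 : ℝ), (23 / 160 : ℝ)) ∈ region 2 4 :=
  use4 7 ![1, 2] (surj_lin _ 0 rfl) (col 7 [0, 3]) 2 0 184 (by decide +kernel) (by norm_num)
    (by norm_num) (by decide +kernel) (by decide +kernel) _ _ (by norm_num) (by norm_num)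

theorem v5 : ((2 / 3 : ℝ), (41 / 192 : ℝ)) ∈ region 2 4 :=
  use4 4 ![2, 1] (surj_lin _ 1 rfl) (col 4 [0]) 1 0 164 (by decide +kernel) (by norm_num)
    (by norm_num) (by decide +kernel) (by decide +kernel) _ _ (by norm_num) (by norm_num)

theorem v6 : ((3 / 4 : ℝ), (81 / 256 : ℝ)) ∈ region 2 4 :=
  use4 5 ![1, 2] (surj_lin _ 0 rfl) (col 5 [0]) 1 0 324 (by decide +kernel) (by norm_num)
    (by norm_num) (by decide +kernel) (by decide +kernel) _ _ (by norm_num) (by norm_num)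

theorem v7 : ((4 / 5 : ℝ), (17 / 40 : ℝ)) ∈ region 2 4 :=
  use4 6 ![1, 2] (surj_lin _ 0 rfl) (col 6 [0]) 1 0 544 (by decide +kernel) (by norm_num)
    (by norm_num) (by decide +kernel) (by decide +kernel) _ _ (by norm_num) (by norm_num)

theorem v8 : ((6 / 7 : ℝ), (9 / 16 : ℝ)) ∈ region 2 4 :=
  use4 8 ![1, 3] (surj_lin _ 0 rfl) (col 8 [0]) 1 0 1008 (by decide +kernel) (by norm_num)
    (by norm_num) (by decide +kernel) (by decide +kernel) _ _ (by norm_num) (by norm_num)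

theorem v9 : ((8 / 9 : ℝ), (47 / 72 : ℝ)) ∈ region 2 4 :=
  use4 20 ![1, 6] (surj_lin _ 0 rfl) (col 20 [0, 10]) 2 0 3008 (by decide +kernel) (by norm_num)
    (by norm_num) (by decide +kernel) (by decide +kernel) _ _ (by norm_num) (by norm_num)

theorem v10 : ((10 / 11 : ℝ), (1003 / 1408 : ℝ)) ∈ region 2 4 :=
  use4 24 ![10, 21] surj24 (col 24 [10, 22]) 2 0 4012 (by decide +kernel) (by norm_num)
    (by norm_num) (by decide +kernel) (by decide +kernel) _ _ (by norm_num) (by norm_num)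

theorem v11 : ((11 / 12 : ℝ), (565 / 768 : ℝ)) ∈ region 2 4 :=
  use4 13 ![1, 5] (surj_lin _ 0 rfl) (col 13 [0]) 1 0 2260 (by decide +kernel) (by norm_num)
    (by norm_num) (by decide +kernel) (by decide +kernel) _ _ (by norm_num) (by norm_num)

theorem v12 : ((1 : ℝ), (1 : ℝ)) ∈ region 2 4 :=
  use4 1 ![0, 0] (fun u => ⟨0, Subsingleton.elim _ _⟩) (col 1 []) 0 0 256 (by decide +kernel) (by norm_num)
    (by norm_num) (by decide +kernel) (by decide +kernel) _ _ (by norm_num) (by norm_num)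

theorem vx4 : T_VX4 := by
  intro p hp
  simp only [verts4, Set.mem_insert_iff, Set.mem_singleton_iff] at hp
  rcases hp with rfl | rfl | rfl | rfl | rfl | rfl | rfl | rfl | rfl | rfl | rfl | rfl | rfl
  · exact v0
  · exact v1
  · exact v2
  · exact v3
  · exact v4
  · exact v5
  · exact v6
  · exact v7
  · exact v8
  · exact v9
  · exact v10
  · exact v11
  · exact v12

end Pool.Agent.H69.TE
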